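import Pool.Agent.W2helper75.FD.Stm5
import Pool.Agent.W2helper19.FD.Wlk

/-!
# Project FD, piece WLKU: the uniform version of WLK
-/

set_option autoImplicit false

open MeasureTheory ProbabilityTheory Filter Topology
open scoped ENNReal NNReal

namespace Pool.Agent.W2helper93.FD

open Pool.Agent.W2helper75.FD Pool.Agent.W2helper19.FD

theorem wlku : P_WLKU := by
  intro S _ _ _ _ N δ hδ
  obtain ⟨t0, ht0⟩ := late_small N δ hδ
  refine ⟨t0, fun t ht X mx x y => ?_⟩
  have hsub : {c : Par S | ¬ Hits mx t x c y} ⊆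
      (Late N t ×ˢ (Set.univ : Set (ℕ → S))) ∪ ((Set.univ : Set (ℕ → ℝ)) ×ˢ Miss mx y N x) := by
    intro c hc
    by_contra hcon
    simp only [Set.mem_union, Set.mem_prod, Set.mem_univ, and_true, true_and, not_or] at hcon
    obtain ⟨h3, h4⟩ := hcon
    apply hc
    simp only [Miss, Set.mem_ofPred_eq, not_forall, not_not] at h4
    obtain ⟨k, hk, hy⟩ := h4
    refine ⟨k, ?_, hy⟩
    by_contra h5
    exact h3 ⟨k, hk, not_le.1 h5⟩
  calc plaw S {c | ¬ Hits mx t x c y}
      ≤ plaw S ((Late N t ×ˢ (Set.univ : Set (ℕ → S))) ∪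
          ((Set.univ : Set (ℕ → ℝ)) ×ˢ Miss mx y N x)) := measure_mono hsub
    _ ≤ plaw S (Late N t ×ˢ (Set.univ : Set (ℕ → S))) +
          plaw S ((Set.univ : Set (ℕ → ℝ)) ×ˢ Miss mx y N x) := measure_union_le _ _
    _ = tlaw (Late N t) + mlaw S (Miss mx y N x) := by
        unfold plaw
        rw [Measure.prod_prod, Measure.prod_prod, measure_univ, measure_univ, mul_one, one_mul]
    _ ≤ δ + ENNReal.ofReal (1 - hit mx y N x) :=
        add_le_add ((measure_mono (late_anti N ht)).trans ht0) (miss_le mx y N x)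
    _ = ENNReal.ofReal (1 - hit mx y N x) + δ := add_comm _ _

end Pool.Agent.W2helper93.FD
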